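import Pool.Agent.Work.MP_417230_al.U.PWRep

set_option autoImplicit false

open Topology Filter Set MeasureTheory
open scoped InnerProductSpace ComplexConjugate

namespace Pool.Agent.Work.MP_417230_al.U

theorem comp_congr {K : Type*} [MeasurableSpace K] {μ : Measure K} {f f' : K → K} (h : f = f')
    (hf : MeasurePreserving f μ μ) (hf' : MeasurePreserving f' μ μ) (g : Lp ℂ 2 μ) :
    Lp.compMeasurePreserving f hf g = Lp.compMeasurePreserving f' hf' g := by
  subst h
  rfl

section

variable {K : Type*} [AddCommGroup K] [TopologicalSpace K] [IsTopologicalAddGroup K]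
  [CompactSpace K] [MeasurableSpace K] [BorelSpace K] (μ : Measure K) [IsProbabilityMeasure μ]
  [μ.IsAddLeftInvariant] [μ.IsOpenPosMeasure]

/-- translation operators on `L²` -/
noncomputable def shiftOp (y : K) : Lp ℂ 2 μ →L[ℂ] Lp ℂ 2 μ :=
  (Lp.compMeasurePreservingₗᵢ ℂ (fun z => y + z)
    (measurePreserving_add_left μ y)).toContinuousLinearMap

omit [CompactSpace K] [IsProbabilityMeasure μ] [μ.IsOpenPosMeasure] in
theorem shiftOp_apply (y : K) (g : Lp ℂ 2 μ) :
    shiftOp μ y g = Lp.compMeasurePreserving (fun z => y + z) (measurePreserving_add_left μ y) g :=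
  rfl

omit [CompactSpace K] [IsProbabilityMeasure μ] [μ.IsOpenPosMeasure] in
theorem shiftOp_zero (g : Lp ℂ 2 μ) : shiftOp μ 0 g = g := by
  rw [shiftOp_apply, comp_congr (f' := id) (by funext z; simp) _ (MeasurePreserving.id μ),
    Lp.compMeasurePreserving_id_apply]

omit [CompactSpace K] [IsProbabilityMeasure μ] [μ.IsOpenPosMeasure] in
theorem shiftOp_add (x y : K) (g : Lp ℂ 2 μ) : shiftOp μ (x + y) g = shiftOp μ x (shiftOp μ y g) := by
  rw [shiftOp_apply, shiftOp_apply, shiftOp_apply, ← Lp.compMeasurePreserving_comp_apply]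
  exact comp_congr (by funext z; simp only [Function.comp]; abel) _ _ g

omit [CompactSpace K] [IsProbabilityMeasure μ] [μ.IsOpenPosMeasure] in
theorem shiftOp_inner (x : K) (f g : Lp ℂ 2 μ) : ⟪shiftOp μ x f, shiftOp μ x g⟫_ℂ = ⟪f, g⟫_ℂ :=
  LinearIsometry.inner_map_map _ f g

omit [μ.IsOpenPosMeasure] in
theorem shiftOp_toLp (y : K) (f : C(K, ℂ)) : shiftOp μ y (ContinuousMap.toLp 2 μ ℂ f) =
    ContinuousMap.toLp 2 μ ℂ (f.comp ⟨fun z => y + z, continuous_const.add continuous_id⟩) := by
  rfl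

omit [μ.IsOpenPosMeasure] in
theorem shiftOp_continuous (f : C(K, ℂ)) :
    Continuous (fun y => shiftOp μ y (ContinuousMap.toLp 2 μ ℂ f)) := by
  simp_rw [shiftOp_toLp]
  refine (ContinuousMap.toLp 2 μ ℂ).continuous.comp ?_
  let F : C(K × K, ℂ) := f.comp ⟨fun p => p.1 + p.2, continuous_fst.add continuous_snd⟩
  exact F.curry.continuous

include μ in
theorem chars_separate_aux [T2Space K] {x₀ : K} (hx₀ : x₀ ≠ 0) :
    ∃ χ : K →+ UnitAddCircle, Continuous χ ∧ χ x₀ ≠ 0 := by
  by_contra hcon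
  push Not at hcon
  obtain ⟨f, hf0, hf1, _⟩ := exists_continuous_zero_one_of_isClosed
    (isClosed_singleton (x := (0 : K))) (isClosed_singleton (x := x₀))
    (Set.disjoint_singleton.2 hx₀.symm)
  let f' : C(K, ℂ) := ⟨fun z => (f z : ℂ), Complex.continuous_ofReal.comp f.continuous⟩
  have h := rep_trivial (U := shiftOp μ) (shiftOp_zero μ) (shiftOp_add μ) (shiftOp_inner μ)
    (shiftOp_continuous μ f') μ hcon
  rw [shiftOp_toLp] at h
  have h2 := ContinuousMap.toLp_injective μ h
  have h3 := congrArg (fun g : C(K, ℂ) => g 0) h2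
  have h4 : (f (x₀ + 0) : ℂ) = (f 0 : ℂ) := h3
  rw [add_zero, hf0 rfl, hf1 rfl] at h4
  simp at h4

end

/-- Characters of a compact abelian group separate points. -/
theorem chars_separate {K : Type*} [AddCommGroup K] [TopologicalSpace K] [IsTopologicalAddGroup K]
    [CompactSpace K] [T2Space K] {x₀ : K} (hx₀ : x₀ ≠ 0) :
    ∃ χ : K →+ UnitAddCircle, Continuous χ ∧ χ x₀ ≠ 0 := by
  borelize K
  let μ : Measure K := Measure.addHaarMeasure ⊤
  have : IsProbabilityMeasure μ := ⟨Measure.addHaarMeasure_self⟩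
  exact chars_separate_aux μ hx₀

end Pool.Agent.Work.MP_417230_al.U
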