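import Pool.Agent.Work.MP_417230_al.U.KCons

set_option autoImplicit false

open Topology Filter Set
open scoped Pointwise

namespace Pool.Agent.Work.MP_417230_al.U

theorem metrizable_quot {G : Type*} [AddCommGroup G] [TopologicalSpace G] [IsTopologicalAddGroup G]
    {K : AddSubgroup G} (hK : IsClosed (K : Set G)) {V : ℕ → Set G}
    (hVn : ∀ n, V n ∈ 𝓝 (0 : G)) (hKW : ∀ W ∈ 𝓝 (0 : G), ∃ n, V n ⊆ (K : Set G) + W) :
    TopologicalSpace.MetrizableSpace (G ⧸ K) := by
  have hbasis : (𝓝 (0 : G ⧸ K)).HasBasis (fun _ : ℕ => True)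
      (fun n => ((↑) : G → G ⧸ K) '' V n) := by
    refine ⟨fun U => ⟨fun hU => ?_, ?_⟩⟩
    · have hc : Tendsto ((↑) : G → G ⧸ K) (𝓝 0) (𝓝 0) :=
        (continuous_quotient_mk' : Continuous ((↑) : G → G ⧸ K)).tendsto 0
      obtain ⟨n, hn⟩ := hKW _ (hc hU)
      refine ⟨n, trivial, ?_⟩
      rintro _ ⟨x, hx, rfl⟩
      obtain ⟨k, hk, w, hw, rfl⟩ := hn hx
      have : ((k + w : G) : G ⧸ K) = (w : G ⧸ K) := by
        rw [QuotientAddGroup.mk_add, (QuotientAddGroup.eq_zero_iff k).2 hk, zero_add]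
      simp only
      rw [this]
      exact hw
    · rintro ⟨n, _, hn⟩
      exact mem_of_superset (QuotientAddGroup.isOpenMap_coe.image_mem_nhds (hVn n)) hn
  have hcg : (𝓝 (0 : G ⧸ K)).IsCountablyGenerated := hbasis.isCountablyGenerated
  let := IsTopologicalAddGroup.rightUniformSpace (G ⧸ K)
  have : IsUniformAddGroup (G ⧸ K) := isUniformAddGroup_of_addCommGroup
  have : IsCountablyGenerated (uniformity (G ⧸ K)) :=
    IsUniformAddGroup.uniformity_countably_generated
  have : IsClosed (K : Set G) := hK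
  have : T3Space (G ⧸ K) := QuotientAddGroup.instT3Space K
  exact UniformSpace.metrizableSpace

theorem main_of_PW {G : Type*} [AddCommGroup G] [UniformSpace G] [IsUniformAddGroup G] [T2Space G]
    [CompleteSpace G] {Vs : Set G} (hVs : Vs ∈ 𝓝 (0 : G)) (hLM : LocMin G Vs)
    (hPW : ∀ K : AddSubgroup G, IsCompact (K : Set G) → ∀ x : K, x ≠ 0 →
      ∃ χ : K →+ TT, Continuous χ ∧ χ x ≠ 0) :
    ∃ K : AddSubgroup G, IsCompact (K : Set G) ∧ TopologicalSpace.MetrizableSpace (G ⧸ K) := by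
  obtain ⟨V, hV, hVn, hVV⟩ := exists_chain hVs
  have hC := cov_of_parts' hV (fun W hW => step_one hLM hV hVn hVV hW)
    (fun p hp => part_cov hLM hV hVn hVV hPW hp)
  obtain ⟨K, hK, _, hKW⟩ := exists_compact V hV hC
  exact ⟨K, hK, metrizable_quot hK.isClosed hVn hKW⟩

end Pool.Agent.Work.MP_417230_al.U
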