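import Pool.Agent.Work.MP_417230_al.U.Basic

set_option autoImplicit false

open Topology Filter Set
open scoped Pointwise

namespace Pool.Agent.Work.MP_417230_al.U

variable {G : Type*} [AddCommGroup G]

/-- A decreasing sequence of symmetric sets with `Y (n+1) + Y (n+1) ⊆ Y n`. -/
structure Chain (Y : ℕ → Set G) : Prop where
  zero : ∀ n, (0 : G) ∈ Y n
  neg : ∀ n x, x ∈ Y n → -x ∈ Y n
  add : ∀ n x y, x ∈ Y (n + 1) → y ∈ Y (n + 1) → x + y ∈ Y n

namespace Chain

variable {Y : ℕ → Set G} (h : Chain Y)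
include h

theorem succ_sub (n : ℕ) : Y (n + 1) ⊆ Y n := by
  intro x hx
  simpa using h.add n x 0 hx (h.zero _)

theorem mono {m n : ℕ} (hmn : m ≤ n) : Y n ⊆ Y m := by
  induction hmn with
  | refl => exact Subset.rfl
  | step _ ih => exact (h.succ_sub _).trans ih

theorem sub (n : ℕ) (x y : G) (hx : x ∈ Y (n + 1)) (hy : y ∈ Y (n + 1)) : x - y ∈ Y n := by
  rw [sub_eq_add_neg]
  exact h.add n _ _ hx (h.neg _ _ hy)

theorem nsmul {n r m : ℕ} (hm : m ≤ 2 ^ r) {x : G} (hx : x ∈ Y (n + r)) : m • x ∈ Y n := by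
  induction r generalizing n m with
  | zero =>
    rw [pow_zero] at hm
    interval_cases m
    · simpa using h.zero n
    · simpa using hx
  | succ r ih =>
    obtain ⟨a, b, rfl, ha, hb⟩ : ∃ a b, m = a + b ∧ a ≤ 2 ^ r ∧ b ≤ 2 ^ r := by
      refine ⟨m / 2, m - m / 2, by omega, ?_, ?_⟩ <;> rw [pow_succ] at hm <;> omega
    have hx' : x ∈ Y (n + 1 + r) := by
      have : n + 1 + r = n + (r + 1) := by omega
      rwa [this]
    rw [add_smul]
    exact h.add n _ _ (ih ha hx') (ih hb hx')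

theorem zsmul {n r : ℕ} {m : ℤ} (hm : |m| ≤ 2 ^ r) {x : G} (hx : x ∈ Y (n + r)) :
    m • x ∈ Y n := by
  rcases Int.eq_nat_or_neg m with ⟨k, rfl | rfl⟩
  · rw [natCast_zsmul]
    refine h.nsmul ?_ hx
    rw [Nat.abs_cast] at hm
    exact_mod_cast hm
  · rw [neg_smul, natCast_zsmul]
    refine h.neg _ _ (h.nsmul ?_ hx)
    rw [abs_neg, Nat.abs_cast] at hm
    exact_mod_cast hm

end Chain

/-- `S` is covered by finitely many translates of `U`. -/
def Cov (S U : Set G) : Prop := ∃ F : Set G, F.Finite ∧ S ⊆ F + U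

theorem Cov.mono {S S' U U' : Set G} (h : Cov S U) (hS : S' ⊆ S) (hU : U ⊆ U') : Cov S' U' := by
  obtain ⟨F, hF, hF'⟩ := h
  exact ⟨F, hF, hS.trans (hF'.trans (add_subset_add_left hU))⟩

theorem Cov.add {S S' U U' : Set G} (h : Cov S U) (h' : Cov S' U') : Cov (S + S') (U + U') := by
  obtain ⟨F, hF, hFS⟩ := h
  obtain ⟨F', hF', hFS'⟩ := h'
  refine ⟨F + F', hF.add hF', ?_⟩
  refine (add_subset_add hFS hFS').trans ?_
  rintro _ ⟨_, ⟨f, hf, u, hu, rfl⟩, _, ⟨f', hf', u', hu', rfl⟩, rfl⟩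
  refine ⟨f + f', ⟨f, hf, f', hf', rfl⟩, u + u', ⟨u, hu, u', hu', rfl⟩, ?_⟩
  simp only
  abel

theorem Cov.refl (S : Set G) : Cov S S :=
  ⟨{0}, finite_singleton 0, fun x hx => ⟨0, rfl, x, hx, zero_add x⟩⟩

theorem Cov.trans {S T U : Set G} (h : Cov S T) (h' : Cov T U) : Cov S U := by
  obtain ⟨F, hF, hFS⟩ := h
  obtain ⟨F', hF', hFS'⟩ := h'
  refine ⟨F + F', hF.add hF', ?_⟩
  refine (hFS.trans (add_subset_add_left hFS')).trans ?_
  rw [← add_assoc]

theorem Cov.image {S U : Set G} (h : Cov S U) (m : ℤ) :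
    Cov ((fun x => m • x) '' S) ((fun x => m • x) '' U) := by
  obtain ⟨F, hF, hFS⟩ := h
  refine ⟨(fun x => m • x) '' F, hF.image _, ?_⟩
  rintro _ ⟨x, hx, rfl⟩
  obtain ⟨f, hf, u, hu, rfl⟩ := hFS hx
  refine ⟨m • f, ⟨f, hf, rfl⟩, m • u, ⟨u, hu, rfl⟩, ?_⟩
  simp only [smul_add]

/-- Neumann-type covering lemma: if none of the sets `c i • Y n` (for `n` in a suitable range) is
covered by finitely many translates of `T i - T i`, then some `y ∈ Y N` avoids finitely many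
translates for all `i` simultaneously. -/
theorem exists_avoid {Y : ℕ → Set G} (h : Chain Y) {ι : Type*} [DecidableEq ι] (c : ι → ℤ)
    (T : ι → Set G) (S : Finset ι) : ∀ (N : ℕ) (Z : ι → Set G), (∀ i ∈ S, (Z i).Finite) →
    (∀ i ∈ S, ∀ n, N ≤ n → n ≤ N + S.card → ¬ Cov ((fun x => c i • x) '' Y n) (T i - T i)) →
    ∃ y ∈ Y N, ∀ i ∈ S, c i • y ∉ Z i + T i := by
  induction S using Finset.induction_on with
  | empty =>
    intro N Z _ _
    exact ⟨0, h.zero N, by simp⟩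
  | insert i₀ S hi₀ ih =>
    intro N Z hZ hC
    rw [Finset.card_insert_of_notMem hi₀] at hC
    have h1 := hC i₀ (Finset.mem_insert_self _ _) (N + 1) (by omega) (by omega)
    obtain ⟨t, ht, ht'⟩ : ∃ t ∈ Y (N + 1), c i₀ • t ∉ (Z i₀ - Z i₀) + (T i₀ - T i₀) := by
      by_contra hcon
      push Not at hcon
      apply h1
      have hZ0 := hZ i₀ (Finset.mem_insert_self _ _)
      refine ⟨Z i₀ - Z i₀, hZ0.sub hZ0, ?_⟩
      rintro _ ⟨t, ht, rfl⟩
      exact hcon t ht
    obtain ⟨y, hy, hy'⟩ := ih (N + 1) (fun i => Z i ∪ ((fun z => z - c i • t) '' Z i))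
      (fun i hi => ((hZ i (Finset.mem_insert_of_mem hi)).union
        ((hZ i (Finset.mem_insert_of_mem hi)).image _)))
      (fun i hi n hn hn' => hC i (Finset.mem_insert_of_mem hi) n (by omega) (by omega))
    have hyS : ∀ i ∈ S, c i • y ∉ Z i + T i := by
      intro i hi hmem
      apply hy' i hi
      obtain ⟨z, hz, τ, hτ, hzt⟩ := hmem
      exact ⟨z, Or.inl hz, τ, hτ, hzt⟩
    have hytS : ∀ i ∈ S, c i • (y + t) ∉ Z i + T i := by
      intro i hi hmem
      apply hy' i hi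
      obtain ⟨z, hz, τ, hτ, hzt⟩ := hmem
      refine ⟨z - c i • t, Or.inr ⟨z, hz, rfl⟩, τ, hτ, ?_⟩
      simp only at hzt ⊢
      rw [smul_add] at hzt
      have : z + τ - c i • t = c i • y := by rw [hzt]; abel
      rw [← this]
      abel
    by_cases hi : c i₀ • y ∈ Z i₀ + T i₀
    · refine ⟨y + t, h.add N _ _ hy ht, ?_⟩
      intro i hiS
      rw [Finset.mem_insert] at hiS
      rcases hiS with rfl | hiS
      · intro hi'
        apply ht'
        obtain ⟨z, hz, τ, hτ, hzt⟩ := hi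
        obtain ⟨z', hz', τ', hτ', hzt'⟩ := hi'
        refine ⟨z' - z, ⟨z', hz', z, hz, rfl⟩, τ' - τ, ⟨τ', hτ', τ, hτ, rfl⟩, ?_⟩
        simp only at hzt hzt' ⊢
        rw [smul_add] at hzt'
        have : c i • t = z' + τ' - (z + τ) := by rw [hzt', hzt]; abel
        rw [this]
        abel
      · exact hytS i hiS
    · refine ⟨y, h.succ_sub N hy, ?_⟩
      intro i hiS
      rw [Finset.mem_insert] at hiS
      rcases hiS with rfl | hiS
      · exact hi
      · exact hyS i hiS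

end Pool.Agent.Work.MP_417230_al.U
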