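import Pool.Agent.Work.MP_417230_al.U.Prime

set_option autoImplicit false

open Topology Filter Set
open scoped Pointwise

namespace Pool.Agent.Work.MP_417230_al.U

variable {G : Type*} [AddCommGroup G] [TopologicalSpace G] [IsTopologicalAddGroup G]

/-- `p ^ a • Y n` -/
def P (p : ℕ) (Y : ℕ → Set G) (a n : ℕ) : Set G := (fun x => ((p : ℤ) ^ a) • x) '' Y n

omit [TopologicalSpace G] [IsTopologicalAddGroup G] in
theorem abs_le_two_pow (z : ℤ) : |z| ≤ 2 ^ z.natAbs := by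
  rw [Int.abs_eq_natAbs]
  exact_mod_cast (Nat.lt_two_pow_self).le

omit [TopologicalSpace G] [IsTopologicalAddGroup G] in
theorem Chain.zsmul' {Y : ℕ → Set G} (h : Chain Y) {n : ℕ} (z : ℤ) {x : G}
    (hx : x ∈ Y (n + z.natAbs)) : z • x ∈ Y n :=
  h.zsmul (abs_le_two_pow z) hx

theorem iter {Y : ℕ → Set G} (p β : ℕ) (l : ℕ) : ∀ T ∈ 𝓝 (0 : G),
    ∃ U ∈ 𝓝 (0 : G), ∀ n, Cov (P p Y β n) (U + P p Y (β + 1) n) →
      Cov (P p Y β n) (T + P p Y (β + l) n) := by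
  induction l with
  | zero =>
    intro T hT
    refine ⟨T, hT, fun n _ => (Cov.refl _).mono Subset.rfl ?_⟩
    intro x hx
    exact ⟨0, mem_of_mem_nhds hT, x, hx, zero_add x⟩
  | succ l ih =>
    intro T hT
    obtain ⟨T₁, hT₁, _, hT₁T⟩ := exists_half hT
    obtain ⟨U₁, hU₁, hU₁T⟩ := ih T₁ hT₁
    obtain ⟨U₂, hU₂, hU₂T⟩ := exists_smul_sub hT₁ ((p : ℤ) ^ l)
    refine ⟨U₁ ∩ U₂, inter_mem hU₁ hU₂, fun n hn => ?_⟩
    have h1 := hU₁T n (hn.mono Subset.rfl (add_subset_add_right inter_subset_left))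
    have h2 : Cov (P p Y (β + l) n) (T₁ + P p Y (β + (l + 1)) n) := by
      refine (hn.image ((p : ℤ) ^ l)).mono ?_ ?_
      · rintro _ ⟨x, hx, rfl⟩
        refine ⟨_, ⟨x, hx, rfl⟩, ?_⟩
        simp only [smul_smul]
        congr 1
        ring
      · rintro _ ⟨_, ⟨u, hu, _, ⟨x, hx, rfl⟩, rfl⟩, rfl⟩
        refine ⟨(p : ℤ) ^ l • u, hU₂T u hu.2, _, ⟨x, hx, rfl⟩, ?_⟩
        simp only [smul_add, smul_smul]
        congr 2
        ring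
    refine (h1.trans ((Cov.refl T₁).add h2)).mono Subset.rfl ?_
    rintro _ ⟨a, ha, _, ⟨b, hb, c, hc, rfl⟩, rfl⟩
    exact ⟨a + b, hT₁T a ha b hb, c, hc, add_assoc a b c⟩

theorem claimA {Y : ℕ → Set G} (hY : Chain Y) {p : ℕ} (hp : p.Prime)
    (H3 : ∀ W ∈ 𝓝 (0 : G), ∃ a n : ℕ, Cov (P p Y a n) W) {β : ℕ}
    (hNP : ∃ U ∈ 𝓝 (0 : G), ∀ n, ¬ Cov (P p Y β n) U) :
    ∃ W ∈ 𝓝 (0 : G), ∀ u : ℤ, ¬ (p : ℤ) ∣ u → ∀ n, ∃ n', ∀ n'', n' ≤ n'' →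
      ¬ Cov ((fun x => ((p : ℤ) ^ β * u) • x) '' Y n) (W + P p Y (β + 1) n'') := by
  obtain ⟨U, hU, hUn⟩ := hNP
  obtain ⟨U₃, hU₃, _, hU₃U⟩ := exists_half hU
  obtain ⟨a, n₂, han₂⟩ := H3 U₃ hU₃
  obtain ⟨U₁, hU₁, hiter⟩ := iter (Y := Y) p β a U₃ hU₃
  obtain ⟨U₂, hU₂, hU₂n, hU₂U⟩ := exists_half hU₁
  obtain ⟨a₁, n₁, han₁⟩ := H3 U₂ hU₂
  obtain ⟨W, hW, _, hWU⟩ := exists_smul_sub_le hU₂ (p ^ a₁)
  refine ⟨W, hW, fun u hu n => ?_⟩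
  by_contra hcon
  push Not at hcon
  have hcop : IsCoprime ((p : ℤ) ^ a₁) u := by
    apply IsCoprime.pow_left
    exact (Nat.prime_iff_prime_int.1 hp).coprime_iff_not_dvd.2 hu
  obtain ⟨γ₀, α₀, hγα⟩ := hcop
  have hpa : (0 : ℤ) < (p : ℤ) ^ a₁ := by
    have := hp.pos
    positivity
  obtain ⟨α, γ, hα, hα', hαγ⟩ : ∃ α γ : ℤ, 0 ≤ α ∧ α < (p : ℤ) ^ a₁ ∧
      α * u = 1 + γ * (p : ℤ) ^ a₁ := by
    refine ⟨α₀ % (p : ℤ) ^ a₁, -γ₀ - (α₀ / (p : ℤ) ^ a₁) * u, Int.emod_nonneg _ hpa.ne',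
      Int.emod_lt_of_pos _ hpa, ?_⟩
    have h1 := Int.emod_add_mul_ediv α₀ ((p : ℤ) ^ a₁)
    have h2 : α₀ % (p : ℤ) ^ a₁ = α₀ - (p : ℤ) ^ a₁ * (α₀ / (p : ℤ) ^ a₁) := by linarith
    rw [h2]
    linear_combination hγα
  set N := max n (max (n₂ + p ^ β) (n₁ + ((p : ℤ) ^ β * γ).natAbs)) with hN
  have hN1 : n ≤ N := le_max_left _ _
  have hN2 : n₂ + p ^ β ≤ N := (le_max_left _ _).trans (le_max_right _ _)
  have hN3 : n₁ + ((p : ℤ) ^ β * γ).natAbs ≤ N := (le_max_right _ _).trans (le_max_right _ _)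
  obtain ⟨n'', hn'', hC⟩ := hcon (N + p ^ a₁)
  have hC1 : Cov (P p Y β N) ((U₂ + P p Y (β + 1) N) + U₂) := by
    refine ((hC.image α).add han₁).mono ?_ ?_
    · rintro _ ⟨x, hx, rfl⟩
      refine ⟨α • (((p : ℤ) ^ β * u) • x), ⟨_, ⟨x, hY.mono hN1 hx, rfl⟩, rfl⟩,
        (p : ℤ) ^ a₁ • (-(((p : ℤ) ^ β * γ) • x)), ⟨_, hY.neg _ _ (hY.zsmul' _ (hY.mono hN3 hx)),
        rfl⟩, ?_⟩
      simp only [smul_smul, smul_neg, ← sub_eq_add_neg, ← sub_smul]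
      congr 1
      linear_combination (p : ℤ) ^ β * hαγ
    · refine add_subset_add_right ?_
      rintro _ ⟨_, ⟨w, hw, _, ⟨x, hx, rfl⟩, rfl⟩, rfl⟩
      refine ⟨α • w, hWU α ?_ w hw, (p : ℤ) ^ (β + 1) • (α • x), ⟨_, ?_, rfl⟩, ?_⟩
      · rw [abs_of_nonneg hα]
        push_cast
        exact hα'.le
      · refine hY.zsmul (r := p ^ a₁) ?_ (hY.mono hn'' hx)
        rw [abs_of_nonneg hα]
        refine hα'.le.trans ?_
        exact_mod_cast (Nat.lt_two_pow_self (n := p ^ a₁)).le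
      · simp only [smul_add, smul_smul]
        congr 2
        ring
  have hC2 : Cov (P p Y β N) (U₁ + P p Y (β + 1) N) := by
    refine hC1.mono Subset.rfl ?_
    rintro _ ⟨_, ⟨b, hb, c, hc, rfl⟩, b', hb', rfl⟩
    refine ⟨b + b', hU₂U b hb b' hb', c, hc, ?_⟩
    simp only
    abel
  have hC3 := hiter N hC2
  have hC4 : Cov (P p Y (β + a) N) U₃ := by
    refine han₂.mono ?_ Subset.rfl
    rintro _ ⟨x, hx, rfl⟩
    refine ⟨(p : ℤ) ^ β • x, ?_, ?_⟩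
    · refine hY.zsmul (r := p ^ β) ?_ (hY.mono hN2 hx)
      rw [abs_of_nonneg (by positivity)]
      exact_mod_cast (Nat.lt_two_pow_self (n := p ^ β)).le
    · simp only [smul_smul]
      congr 1
      ring
  refine hUn N ((hC3.trans ((Cov.refl U₃).add hC4)).mono Subset.rfl ?_)
  rintro _ ⟨b, hb, b', hb', rfl⟩
  exact hU₃U b hb b' hb'

end Pool.Agent.Work.MP_417230_al.U
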