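import Pool.Agent.Work.MP_417230_al.U.Chain

set_option autoImplicit false

open Topology Filter Set
open scoped Pointwise

namespace Pool.Agent.Work.MP_417230_al.U

section Top

variable {G : Type*} [AddCommGroup G] [TopologicalSpace G] [IsTopologicalAddGroup G]

theorem exists_half {U : Set G} (hU : U ∈ 𝓝 (0 : G)) :
    ∃ W ∈ 𝓝 (0 : G), (∀ x ∈ W, -x ∈ W) ∧ ∀ x ∈ W, ∀ y ∈ W, x + y ∈ U := by
  obtain ⟨W, hWo, hW0, hW⟩ := exists_open_nhds_zero_half hU
  have hWn := hWo.mem_nhds hW0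
  refine ⟨W ∩ -W, inter_mem hWn (neg_mem_nhds_zero G hWn), ?_, ?_⟩
  · rintro x ⟨hx, hx'⟩
    exact ⟨hx', by simpa using hx⟩
  · intro x hx y hy
    exact hW x hx.1 y hy.1

theorem exists_chain {V : Set G} (hV : V ∈ 𝓝 (0 : G)) :
    ∃ Y : ℕ → Set G, Chain Y ∧ (∀ n, Y n ∈ 𝓝 (0 : G)) ∧ ∀ x ∈ Y 0, ∀ y ∈ Y 0, x + y ∈ V := by
  classical
  choose! f hf1 hf2 hf3 using fun (U : Set G) (hU : U ∈ 𝓝 (0 : G)) => exists_half hU
  let Y : ℕ → Set G := fun n => Nat.rec (f V) (fun _ U => f U) n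
  have hY : ∀ n, Y n ∈ 𝓝 (0 : G) := by
    intro n
    induction n with
    | zero => exact hf1 V hV
    | succ n ih => exact hf1 (Y n) ih
  refine ⟨Y, ⟨fun n => mem_of_mem_nhds (hY n), ?_, ?_⟩, hY, hf3 V hV⟩
  · intro n x hx
    cases n with
    | zero => exact hf2 V hV x hx
    | succ n => exact hf2 (Y n) (hY n) x hx
  · intro n x y hx hy
    exact hf3 (Y n) (hY n) x hx y hy

/-- multiples of a small neighbourhood are small -/
theorem exists_smul_sub {U : Set G} (hU : U ∈ 𝓝 (0 : G)) (m : ℤ) :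
    ∃ W ∈ 𝓝 (0 : G), ∀ x ∈ W, m • x ∈ U := by
  have hc : Tendsto (fun x : G => m • x) (𝓝 0) (𝓝 0) := by
    have : Continuous (fun x : G => m • x) := continuous_zsmul m
    simpa using this.tendsto 0
  exact ⟨_, hc hU, fun x hx => hx⟩

theorem exists_smul_sub_le {U : Set G} (hU : U ∈ 𝓝 (0 : G)) (M : ℕ) :
    ∃ W ∈ 𝓝 (0 : G), (∀ x ∈ W, -x ∈ W) ∧ ∀ m : ℤ, |m| ≤ M → ∀ x ∈ W, m • x ∈ U := by
  obtain ⟨Y, hY, hYn, hY0⟩ := exists_chain hU
  refine ⟨Y (0 + M), hYn _, hY.neg _, ?_⟩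
  intro m hm x hx
  have h1 : m • x ∈ Y 0 := hY.zsmul (hm.trans (by exact_mod_cast (Nat.lt_two_pow_self).le)) hx
  simpa using hY0 _ h1 0 (hY.zero 0)

theorem cov_compact {K : Set G} (hK : IsCompact K) {U : Set G} (hU : U ∈ 𝓝 (0 : G)) :
    Cov K U := by
  obtain ⟨t, _, ht⟩ := hK.elim_nhds_subcover (fun x => (fun y => x + y) '' U) (by
    intro x _
    have := (Homeomorph.addLeft x).isOpenMap.image_mem_nhds hU
    simpa using this)
  refine ⟨t, t.finite_toSet, ?_⟩
  intro x hx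
  obtain ⟨y, hy, u, hu, hyu⟩ := mem_iUnion₂.1 (ht hx)
  exact ⟨y, hy, u, hu, hyu⟩

theorem Cov.closure {S U : Set G} (h : Cov S U) (hU : IsClosed U) : Cov (closure S) U := by
  obtain ⟨F, hF, hFS⟩ := h
  refine ⟨F, hF, closure_minimal hFS ?_⟩
  rw [← iUnion_add_left_image]
  refine hF.isClosed_biUnion ?_
  intro x _
  exact (Homeomorph.addLeft x).isClosedMap U hU

end Top

section Unif

variable {G : Type*} [AddCommGroup G] [UniformSpace G] [IsUniformAddGroup G] [T2Space G]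
  [CompleteSpace G]

theorem cauchy_of_cov {F : Ultrafilter G}
    (h : ∀ W ∈ 𝓝 (0 : G), ∃ S ∈ F, Cov S W) : Cauchy (F : Filter G) := by
  refine ⟨F.neBot, ?_⟩
  rw [uniformity_eq_comap_nhds_zero, ← Filter.tendsto_iff_comap]
  intro W hW
  obtain ⟨W', hW', hneg, hadd⟩ := exists_half hW
  obtain ⟨S, hS, E, hE, hES⟩ := h W' hW'
  have h1 : ∃ x ∈ E, (fun y => x + y) '' W' ∈ F := by
    have : (⋃ x ∈ E, (fun y => x + y) '' W') ∈ F := by
      refine F.sets_of_superset hS ?_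
      rw [iUnion_add_left_image]
      exact hES
    exact (Ultrafilter.finite_biUnion_mem_iff hE).1 this
  obtain ⟨x, _, hx⟩ := h1
  rw [mem_map]
  refine Filter.mem_of_superset (prod_mem_prod hx hx) ?_
  rintro ⟨a, b⟩ ⟨⟨a', ha', rfl⟩, ⟨b', hb', rfl⟩⟩
  simp only [mem_preimage]
  have : x + b' - (x + a') = b' + -a' := by abel
  rw [this]
  exact hadd _ hb' _ (hneg _ ha')

theorem exists_compact (S : ℕ → Set G) (hS : Chain S)
    (hC : ∀ W ∈ 𝓝 (0 : G), ∃ n, Cov (S n) W) :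
    ∃ K : AddSubgroup G, IsCompact (K : Set G) ∧ (∀ n, (K : Set G) ⊆ closure (S n)) ∧
      ∀ W ∈ 𝓝 (0 : G), ∃ n, S n ⊆ (K : Set G) + W := by
  classical
  let K : AddSubgroup G :=
    { carrier := ⋂ n, closure (S n)
      zero_mem' := mem_iInter.2 fun n => subset_closure (hS.zero n)
      add_mem' := by
        intro a b ha hb
        rw [mem_iInter] at ha hb ⊢
        intro n
        exact map_mem_closure₂ continuous_add (ha (n + 1)) (hb (n + 1))
          (fun a ha b hb => hS.add n a b ha hb)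
      neg_mem' := by
        intro a ha
        rw [mem_iInter] at ha ⊢
        intro n
        exact map_mem_closure continuous_neg (ha n) (hS.neg n) }
  have hK : (K : Set G) = ⋂ n, closure (S n) := rfl
  have hC' : ∀ W ∈ 𝓝 (0 : G), ∃ n, Cov (closure (S n)) W := by
    intro W hW
    obtain ⟨W', hW', hW'c, hWW⟩ := exists_mem_nhds_isClosed_subset hW
    obtain ⟨n, hn⟩ := hC W' hW'
    exact ⟨n, (hn.closure hW'c).mono Subset.rfl hWW⟩
  have key : ∀ F : Ultrafilter G, (∀ n, closure (S n) ∈ F) → ∃ x ∈ K, (F : Filter G) ≤ 𝓝 x := by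
    intro F hF
    have hc : Cauchy (F : Filter G) := cauchy_of_cov (fun W hW => by
      obtain ⟨n, hn⟩ := hC' W hW
      exact ⟨_, hF n, hn⟩)
    obtain ⟨x, hx⟩ := CompleteSpace.complete hc
    refine ⟨x, ?_, hx⟩
    change x ∈ (K : Set G)
    rw [hK, mem_iInter]
    intro n
    have : ClusterPt x (𝓟 (closure (S n))) := by
      have h1 : (F : Filter G) ≤ 𝓝 x ⊓ 𝓟 (closure (S n)) := le_inf hx (le_principal_iff.2 (hF n))
      exact F.neBot.mono h1
    exact (isClosed_iff_clusterPt.1 isClosed_closure) x this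
  refine ⟨K, ?_, ?_, ?_⟩
  · rw [isCompact_iff_ultrafilter_le_nhds]
    intro F hF
    rw [le_principal_iff] at hF
    obtain ⟨x, hx, hx'⟩ := key F (fun n => mem_of_superset hF (iInter_subset _ n))
    exact ⟨x, hx, hx'⟩
  · intro n
    exact iInter_subset _ n
  · intro W hW
    by_contra hcon
    push Not at hcon
    obtain ⟨W', hW'W, hW'o, hW'0⟩ := mem_nhds_iff.1 hW
    let A : ℕ → Set G := fun n => S n \ ((K : Set G) + W')
    have hA : ∀ n, (A n).Nonempty := by
      intro n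
      obtain ⟨x, hx, hx'⟩ := not_subset.1 (hcon n)
      exact ⟨x, hx, fun h => hx' (add_subset_add_left hW'W h)⟩
    have hdir : Directed (· ≥ ·) (fun n => 𝓟 (A n)) := by
      intro m n
      refine ⟨max m n, ?_, ?_⟩
      · exact principal_mono.2 (sdiff_subset_sdiff_left (hS.mono (le_max_left m n)))
      · exact principal_mono.2 (sdiff_subset_sdiff_left (hS.mono (le_max_right m n)))
    have hne : (⨅ n, 𝓟 (A n)).NeBot :=
      iInf_neBot_of_directed hdir (fun n => principal_neBot_iff.2 (hA n))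
    let F : Ultrafilter G := Ultrafilter.of (⨅ n, 𝓟 (A n))
    have hF : ∀ n, A n ∈ F := by
      intro n
      have : (F : Filter G) ≤ 𝓟 (A n) := (Ultrafilter.of_le _).trans (iInf_le _ n)
      exact le_principal_iff.1 this
    obtain ⟨x, hxK, hx⟩ := key F (fun n =>
      mem_of_superset (hF n) (sdiff_subset.trans subset_closure))
    have h1 : (fun y => x + y) '' W' ∈ F := by
      apply hx
      have := (Homeomorph.addLeft x).isOpenMap.image_mem_nhds (hW'o.mem_nhds hW'0)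
      simpa using this
    obtain ⟨z, ⟨w, hw, hwz⟩, hz⟩ := F.nonempty_of_mem (F.inter_sets h1 (hF 0))
    exact hz.2 ⟨x, hxK, w, hw, hwz⟩

end Unif

end Pool.Agent.Work.MP_417230_al.U
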