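import Pool.Agent.Work.MP_417230_al.U.Final

set_option autoImplicit false

open Topology Filter Set
open scoped Pointwise

namespace Pool.Agent.Work.MP_417230_al.U

variable {G : Type*} [AddCommGroup G] [TopologicalSpace G] [IsTopologicalAddGroup G]

/-- The arithmetic properties of the constructed sequence. -/
def Good (y : ℕ → G) (K : AddSubgroup G) : Prop :=
  ∀ U ∈ 𝓝 (0 : G), ∃ q : ℤ, q ≠ 0 ∧ (∃ k, ∀ a ∈ Box bigR k, q • lin y a ∈ (K : Set G) + U) ∧
    ∃ β, ∃ U' ∈ 𝓝 (0 : G), ∀ a ∈ Box bigR β, lin y a ∈ (K : Set G) + U' → ∀ j, q ∣ a j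

theorem exists_quot {a : ℕ →₀ ℤ} {q : ℤ} (h : ∀ j, q ∣ a j) : ∃ b : ℕ →₀ ℤ, a = q • b := by
  refine ⟨a.mapRange (fun z => z / q) (by simp), ?_⟩
  ext i
  rw [Finsupp.smul_apply, Finsupp.mapRange_apply, smul_eq_mul]
  exact (Int.mul_ediv_cancel' (h i)).symm

theorem mem_of_forall {y : ℕ → G} {K : AddSubgroup G} [T2Space G] (hK : IsCompact (K : Set G))
    (hG : Good y K) {x : G}
    (hx : ∀ W ∈ 𝓝 (0 : G), ∀ k, ∃ w ∈ W, ∃ c : K, ∃ a ∈ A k, x = w + ((c : G) + lin y a)) :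
    x ∈ K := by
  have hcl : closure (K : Set G) = K := hK.isClosed.closure_eq
  have hx' : x ∈ closure (K : Set G) := by
    rw [mem_closure_iff_nhds]
    intro t ht
    have hpre : (fun z => x + z) ⁻¹' t ∈ 𝓝 (0 : G) := by
      have : Tendsto (fun z => x + z) (𝓝 0) (𝓝 x) := by
        have := (continuous_const_add x).tendsto 0
        simpa using this
      exact this ht
    obtain ⟨W₁, hW₁, hW₁n, hW₁W⟩ := exists_half hpre
    obtain ⟨q, hq, ⟨k, hk⟩, β, U', hU', hU'q⟩ := hG W₁ hW₁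
    obtain ⟨W₂, hW₂, hW₂n, hW₂W⟩ := exists_half hU'
    obtain ⟨w, hw, c, a, ha, hxa⟩ := hx (W₁ ∩ W₂) (inter_mem hW₁ hW₂) (max k β)
    obtain ⟨M, hM⟩ := exists_bound a
    obtain ⟨w', hw', c', a', ha', hxa'⟩ := hx (W₁ ∩ W₂) (inter_mem hW₁ hW₂) (max M (max k β))
    have h1 : ∀ j, q ∣ (a - a') j := by
      refine hU'q (a - a') ⟨fun i hi => ?_, fun i => ?_⟩ ?_
      · rw [Finsupp.sub_apply, A_lt ha (by omega), A_lt ha' (by omega), sub_zero]
      · rw [Finsupp.sub_apply]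
        have e1 := A_le ha i
        have e2 := A_le ha' i
        have e3 := abs_sub (a i) (a' i)
        have e4 : (2 : ℤ) ^ i + 2 ^ i ≤ bigR i := by
          simp only [bigR]
          rw [← two_mul, ← pow_succ']
          exact pow_le_pow_right₀ (by norm_num) (by omega)
        linarith
      · refine ⟨((c' - c : K) : G), (c' - c).2, w' + -w, hW₂W _ hw'.2 _ (hW₂n _ hw.2), ?_⟩
        simp only
        rw [map_sub]
        have : w + ((c : G) + lin y a) = w' + ((c' : G) + lin y a') := by rw [← hxa, ← hxa']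
        push_cast
        have h2 : lin y a = w' + ((c' : G) + lin y a') - w - c := by rw [← this]; abel
        rw [h2]
        abel
    have h2 : ∀ j, q ∣ a j := by
      intro j
      rcases lt_or_ge j M with hj | hj
      · have := h1 j
        rwa [Finsupp.sub_apply, A_lt ha' (by omega), sub_zero] at this
      · rw [hM j hj]
        exact dvd_zero q
    obtain ⟨b, hb⟩ := exists_quot h2
    have hbk : b ∈ Box bigR k := by
      have hbi : ∀ i, a i = q * b i := by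
        intro i
        rw [hb, Finsupp.smul_apply, smul_eq_mul]
      have hq1 : 1 ≤ |q| := Int.one_le_abs hq
      have hba : ∀ l, |b l| ≤ |a l| := by
        intro l
        rw [hbi l, abs_mul]
        have := abs_nonneg (b l)
        nlinarith
      refine ⟨fun l hl => ?_, fun l => ?_⟩
      · have h1 := hba l
        rw [A_lt ha (by omega), abs_zero] at h1
        exact abs_eq_zero.1 (le_antisymm h1 (abs_nonneg _))
      · refine (hba l).trans ((A_le ha l).trans ?_)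
        simp only [bigR]
        exact pow_le_pow_right₀ (by norm_num) (by omega)
    obtain ⟨d, hd, u, hu, hdu⟩ := hk b hbk
    have h3 : x + (-w + -u) = c + d := by
      simp only at hdu
      rw [hxa, hb, lin_zsmul, ← hdu]
      abel
    refine ⟨x + (-w + -u), hW₁W _ (hW₁n _ hw.1) _ (hW₁n _ hu), ?_⟩
    rw [h3]
    exact K.add_mem c.2 hd
  rwa [hcl] at hx'

/-- extension of characters -/
theorem exists_char_ext' {y : ℕ → G} {K : AddSubgroup G} (hG : Good y K) (χ : K →+ TT)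
    (hχ : Continuous χ) : ∃ g : ℕ → TT, ∀ ε : ℝ, 0 < ε → ∃ W' ∈ 𝓝 (0 : G), ∃ k', ∀ a ∈ A k',
      ∀ c : K, (c : G) + lin y a ∈ W' → ‖χ c + lin g a‖ < ε := by
  obtain ⟨W, hW, hWn, hWχ⟩ := exists_char_nhds χ hχ (η := 1 / 16) (by norm_num)
  obtain ⟨q, hq, ⟨k, hk⟩, β, U', hU', hU'q⟩ := hG W hW
  obtain ⟨g, hg⟩ := exists_char_ext y hq χ hWn hWχ (mem_of_mem_nhds hW) hk
  exact ⟨g, fun ε hε => char_cont y hq χ hW hg hU' hU'q hε⟩

theorem contra_of_good [T2Space G] {Vs : Set G} (hLM : LocMin G Vs) {V : ℕ → Set G}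
    (hV : Chain V) (hVn : ∀ n, V n ∈ 𝓝 (0 : G)) (hVV : ∀ x ∈ V 0, ∀ y ∈ V 0, x + y ∈ Vs)
    {K : AddSubgroup G} (hK : IsCompact (K : Set G)) (hKV : ∀ c ∈ K, c ∈ V 1)
    {y : ℕ → G} (hyV : ∀ a ∈ A 0, lin y a ∈ V 0) (hG : Good y K) {W₀ : Set G}
    (hW₀ : W₀ ∈ 𝓝 (0 : G)) (hyW : ∀ i j, i < j → y j - y i ∉ W₀)
    (hPW : ∀ x : K, x ≠ 0 → ∃ χ : K →+ TT, Continuous χ ∧ χ x ≠ 0) : False := by
  classical
  have hext : ∀ χ : {χ : K →+ TT // Continuous χ}, ∃ g : ℕ → TT, ∀ ε : ℝ, 0 < ε →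
      ∃ W' ∈ 𝓝 (0 : G), ∃ k', ∀ a ∈ A k', ∀ c : K, (c : G) + lin y a ∈ W' →
        ‖χ.1 c + lin g a‖ < ε := fun χ => exists_char_ext' hG χ.1 χ.2
  choose g hg using hext
  let L : ℕ × Finset {χ : K →+ TT // Continuous χ} × {ε : ℝ // 0 < ε} → Set G := fun i =>
    {z | ∃ c : K, ∃ a ∈ A i.1, z = (c : G) + lin y a ∧
      ∀ χ ∈ i.2.1, ‖χ.1 c + lin (g χ) a‖ < i.2.2.1}
  have : Nonempty (ℕ × Finset {χ : K →+ TT // Continuous χ} × {ε : ℝ // 0 < ε}) :=
    ⟨(0, ∅, ⟨1, one_pos⟩)⟩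
  have hten := lm_tendsto hLM L
    (by
      rintro ⟨k, Φ, ε⟩ ⟨k', Φ', ε'⟩
      refine ⟨(max k k', Φ ∪ Φ', ⟨min ε.1 ε'.1, lt_min ε.2 ε'.2⟩), ?_⟩
      rintro z ⟨c, a, ha, hz, h⟩
      refine ⟨⟨c, a, A_mono (le_max_left _ _) ha, hz, fun χ hχ => ?_⟩,
        ⟨c, a, A_mono (le_max_right _ _) ha, hz, fun χ hχ => ?_⟩⟩
      · exact (h χ (Finset.mem_union_left _ hχ)).trans_le (min_le_left _ _)
      · exact (h χ (Finset.mem_union_right _ hχ)).trans_le (min_le_right _ _))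
    (by
      rintro ⟨k, Φ, ε⟩
      refine ⟨0, 0, A_zero k, by simp, fun χ hχ => ?_⟩
      simpa using ε.2)
    (by
      rintro ⟨k, Φ, ε⟩
      refine ⟨(k + 1, Φ, ⟨ε.1 / 2, half_pos ε.2⟩), ?_⟩
      rintro _ ⟨_, ⟨c, a, ha, rfl, h⟩, _, ⟨c', a', ha', rfl, h'⟩, rfl⟩
      refine ⟨c + c', a + a', A_add ha ha', ?_, fun χ hχ => ?_⟩
      · simp only [map_add]
        push_cast
        abel
      · rw [map_add, map_add]
        have e1 := h χ hχ
        have e2 := h' χ hχ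
        simp only at e1 e2 ⊢
        calc ‖χ.1 c + χ.1 c' + (lin (g χ) a + lin (g χ) a')‖ =
            ‖(χ.1 c + lin (g χ) a) + (χ.1 c' + lin (g χ) a')‖ := by congr 1; abel
          _ ≤ ‖χ.1 c + lin (g χ) a‖ + ‖χ.1 c' + lin (g χ) a'‖ := norm_add_le _ _
          _ < ε.1 := by linarith)
    (by
      rintro ⟨k, Φ, ε⟩
      refine ⟨(k, Φ, ε), ?_⟩
      rintro z ⟨c, a, ha, hz, h⟩
      refine ⟨-c, -a, A_neg ha, ?_, fun χ hχ => ?_⟩
      · rw [map_neg]
        push_cast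
        rw [← neg_add, ← hz, neg_neg]
      · rw [map_neg, map_neg, ← neg_add, norm_neg]
        exact h χ hχ)
    (by
      refine ⟨(0, ∅, ⟨1, one_pos⟩), V 1, hVn 1, ?_⟩
      rintro _ ⟨v, hv, _, ⟨c, a, ha, rfl, h⟩, rfl⟩
      have e1 : v + c ∈ V 0 := hV.add 0 _ _ hv (hKV c c.2)
      have e2 := hVV _ e1 _ (hyV a ha)
      simp only at e2 ⊢
      rwa [← add_assoc])
    (by
      intro x hx
      have hxK : x ∈ K := by
        refine mem_of_forall hK hG fun W hW k => ?_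
        obtain ⟨w, hw, _, ⟨c, a, ha, rfl, _⟩, hx⟩ := hx W hW (k, ∅, ⟨1, one_pos⟩)
        exact ⟨w, hw, c, a, ha, hx.symm⟩
      have hχ0 : ∀ χ : K →+ TT, Continuous χ → χ ⟨x, hxK⟩ = 0 := by
        intro χ hχ
        rw [← norm_le_zero_iff]
        refine le_of_forall_pos_lt_add fun ε hε => ?_
        rw [zero_add]
        obtain ⟨W', hW', k', hk'⟩ := hg ⟨χ, hχ⟩ (ε / 2) (half_pos hε)
        obtain ⟨w, hw, _, ⟨c, a, ha, rfl, h⟩, hxw⟩ := hx (-W') (neg_mem_nhds_zero G hW')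
          (k', {⟨χ, hχ⟩}, ⟨ε / 2, half_pos hε⟩)
        have e1 := h ⟨χ, hχ⟩ (Finset.mem_singleton_self _)
        have e2 := hk' a ha (c - ⟨x, hxK⟩) (by
          have : ((c - ⟨x, hxK⟩ : K) : G) + lin y a = -w := by
            push_cast
            simp only at hxw
            rw [← hxw]
            abel
          rw [this]
          exact hw)
        simp only at e1 e2
        calc ‖χ ⟨x, hxK⟩‖ = ‖(χ c + lin (g ⟨χ, hχ⟩) a) -
              (χ (c - ⟨x, hxK⟩) + lin (g ⟨χ, hχ⟩) a)‖ := by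
                rw [map_sub]; congr 1; abel
          _ ≤ ‖χ c + lin (g ⟨χ, hχ⟩) a‖ + ‖χ (c - ⟨x, hxK⟩) + lin (g ⟨χ, hχ⟩) a‖ :=
                norm_sub_le _ _
          _ < ε := by linarith
      by_contra hx0
      obtain ⟨χ, hχ, hχx⟩ := hPW ⟨x, hxK⟩ (fun h => hx0 (by simpa using congrArg Subtype.val h))
      exact hχx (hχ0 χ hχ))
  obtain ⟨⟨k, Φ, ε⟩, hL⟩ := hten W₀ hW₀
  let F : ℕ → (Φ → TT) := fun n χ => g χ n
  obtain ⟨l, φ, hφ, hlim⟩ := CompactSpace.tendsto_subseq F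
  rw [Metric.tendsto_atTop] at hlim
  obtain ⟨n₀, hn₀⟩ := hlim (ε.1 / 2) (half_pos ε.2)
  let n := max n₀ (k + 1)
  have h1 := hn₀ n (le_max_left _ _)
  have h2 := hn₀ (n + 1) ((le_max_left _ _).trans (Nat.le_succ _))
  have h3 : φ n < φ (n + 1) := hφ (Nat.lt_succ_self n)
  have h4 : k + 1 ≤ φ n := (le_max_right n₀ (k + 1)).trans (hφ.le_apply)
  refine hyW _ _ h3 (hL ⟨0, Finsupp.single (φ (n + 1)) 1 + -Finsupp.single (φ n) 1, ?_, ?_, ?_⟩)
  · exact A_add (A_mono (by omega) (A_single _)) (A_neg (A_mono (by omega) (A_single _)))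
  · rw [map_add, map_neg]
    simp [lin, sub_eq_add_neg]
  · intro χ hχ
    have e1 : dist (F (φ n)) (F (φ (n + 1))) < ε.1 := by
      have := dist_triangle_right (F (φ n)) (F (φ (n + 1))) l
      simp only [Function.comp] at h1 h2
      linarith
    have e2 := (dist_le_pi_dist (F (φ n)) (F (φ (n + 1))) ⟨χ, hχ⟩).trans_lt e1
    rw [dist_comm, dist_eq_norm] at e2
    rw [map_add, map_neg, map_zero, zero_add]
    simpa [lin, sub_eq_add_neg, F] using e2

end Pool.Agent.Work.MP_417230_al.U
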