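import Pool.Agent.Work.MP_417230_al.U.Stability

set_option autoImplicit false

open Topology Filter Set
open scoped Pointwise

namespace Pool.Agent.Work.MP_417230_al.U

section Ext

variable {G : Type*} [AddCommGroup G] [TopologicalSpace G] [IsTopologicalAddGroup G]

/-- a small multiple-free neighbourhood for a character of a subgroup -/
theorem exists_char_nhds {K : AddSubgroup G} (χ : K →+ TT) (hχ : Continuous χ) {η : ℝ}
    (hη : 0 < η) : ∃ W ∈ 𝓝 (0 : G), (∀ x ∈ W, -x ∈ W) ∧ ∀ c : K,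
      (∃ x ∈ W, ∃ y ∈ W, ∃ z ∈ W, (c : G) = x + y + z) → ‖χ c‖ ≤ η := by
  have h1 : Tendsto χ (𝓝 0) (𝓝 0) := by
    have := hχ.tendsto 0
    rwa [map_zero] at this
  have h2 : χ ⁻¹' Metric.ball (0 : TT) η ∈ 𝓝 (0 : K) := h1 (Metric.ball_mem_nhds (0 : TT) hη)
  rw [nhds_subtype_eq_comap, mem_comap] at h2
  obtain ⟨U, hU, hUc⟩ := h2
  obtain ⟨W₁, hW₁, _, hW₁U⟩ := exists_half hU
  obtain ⟨W₂, hW₂, hW₂n, hW₂W⟩ := exists_half hW₁
  refine ⟨W₂, hW₂, hW₂n, ?_⟩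
  rintro c ⟨x, hx, y, hy, z, hz, hc⟩
  have hz' : z ∈ W₁ := by
    have := hW₂W z hz 0 (mem_of_mem_nhds hW₂)
    rwa [add_zero] at this
  have : c ∈ ((↑) : K → G) ⁻¹' U := by
    rw [mem_preimage, hc]
    exact hW₁U _ (hW₂W x hx y hy) _ hz'
  exact (mem_ball_zero_iff.1 (hUc this)).le

omit [TopologicalSpace G] [IsTopologicalAddGroup G] in
theorem lin_zsmul {H : Type*} [AddCommGroup H] (y : ℕ → H) (q : ℤ) (b : ℕ →₀ ℤ) :
    lin y (q • b) = q • lin y b := map_zsmul (lin y) q b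

omit [TopologicalSpace G] [IsTopologicalAddGroup G] in
theorem lin_nsmul {H : Type*} [AddCommGroup H] (y : ℕ → H) (q : ℕ) (b : ℕ →₀ ℤ) :
    lin y (q • b) = q • lin y b := map_nsmul (lin y) q b

omit [TopologicalSpace G] [IsTopologicalAddGroup G] in
theorem exists_char_ext (y : ℕ → G) {K : AddSubgroup G} {q : ℤ} (hq : q ≠ 0) (χ : K →+ TT)
    {W : Set G} (hWn : ∀ x ∈ W, -x ∈ W)
    (hW : ∀ c : K, (∃ x ∈ W, ∃ y ∈ W, ∃ z ∈ W, (c : G) = x + y + z) → ‖χ c‖ ≤ 1 / 16)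
    (h0 : (0 : G) ∈ W) {k : ℕ}
    (hk : ∀ a ∈ Box bigR k, q • lin y a ∈ (K : Set G) + W) :
    ∃ g : ℕ → TT, ∀ a ∈ Box smallR k, ∀ c : K, q • lin y a - c ∈ W →
      ‖q • lin g a - χ c‖ ≤ 1 / 4 := by
  classical
  let f : (ℕ →₀ ℤ) → TT := fun a =>
    if h : ∃ c : K, q • lin y a - c ∈ W then χ (Classical.choose h) else 0
  have hf1 : ∀ a ∈ Box bigR k, ∃ c : K, q • lin y a - c ∈ W ∧ f a = χ c := by
    intro a ha
    have hex : ∃ c : K, q • lin y a - c ∈ W := by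
      obtain ⟨c, hc, w, hw, hcw⟩ := hk a ha
      refine ⟨⟨c, hc⟩, ?_⟩
      simp only at hcw ⊢
      rw [← hcw, add_sub_cancel_left]
      exact hw
    refine ⟨Classical.choose hex, Classical.choose_spec hex, ?_⟩
    simp only [f, dif_pos hex]
  have hf : ∀ a ∈ Box bigR k, ∀ b ∈ Box bigR k, a + b ∈ Box bigR k →
      ‖f (a + b) - f a - f b‖ ≤ 1 / 16 := by
    intro a ha b hb hab
    obtain ⟨c, hc, hfc⟩ := hf1 a ha
    obtain ⟨c', hc', hfc'⟩ := hf1 b hb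
    obtain ⟨c'', hc'', hfc''⟩ := hf1 _ hab
    rw [hfc, hfc', hfc'', ← map_sub, ← map_sub]
    apply hW
    refine ⟨_, hWn _ hc'', _, hc, _, hc', ?_⟩
    rw [map_add, smul_add]
    push_cast
    abel
  obtain ⟨θ', hθ'⟩ := stability (ε := 1 / 16) (by norm_num) (by norm_num) hf
  have hroot : ∀ j, ∃ g : TT, q • g = θ' j := by
    intro j
    obtain ⟨x, hx, _⟩ := exists_rep (θ' j)
    refine ⟨((x / q : ℝ) : TT), ?_⟩
    rw [← hx]
    have hqr : (q : ℝ) ≠ 0 := by exact_mod_cast hq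
    have : (x : ℝ) = q • (x / q) := by
      rw [zsmul_eq_mul]
      field_simp
    conv_rhs => rw [this]
    rfl
  choose g hg using hroot
  refine ⟨g, fun a ha c hc => ?_⟩
  have hlin : q • lin g a = lin θ' a := by
    rw [lin, lin, Finsupp.linearCombination_apply, Finsupp.linearCombination_apply,
      Finsupp.smul_sum]
    refine Finsupp.sum_congr fun i _ => ?_
    rw [← hg i, smul_comm]
  have habig : a ∈ Box bigR k := by
    refine ⟨ha.1, fun i => (ha.2 i).trans ?_⟩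
    simp only [smallR, bigR]
    exact pow_le_pow_right₀ (by norm_num) (by omega)
  obtain ⟨c', hc', hfc'⟩ := hf1 a habig
  have h1 := hθ' a ha
  have h2 : ‖χ (c' - c)‖ ≤ 1 / 16 := by
    apply hW
    refine ⟨_, hc, _, hWn _ hc', 0, h0, ?_⟩
    push_cast
    abel
  rw [map_sub, ← hfc'] at h2
  rw [hlin]
  calc ‖lin θ' a - χ c‖ = ‖-(f a - lin θ' a) + (f a - χ c)‖ := by congr 1; abel
    _ ≤ ‖-(f a - lin θ' a)‖ + ‖f a - χ c‖ := norm_add_le _ _
    _ ≤ 1 / 4 := by rw [norm_neg]; linarith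

/-- from one level to continuity at zero -/
theorem char_cont (y : ℕ → G) {K : AddSubgroup G} {q : ℤ} (hq : q ≠ 0) (χ : K →+ TT)
    {W : Set G} (hWm : W ∈ 𝓝 (0 : G)) {k : ℕ} {g : ℕ → TT}
    (hg : ∀ a ∈ Box smallR k, ∀ c : K, q • lin y a - c ∈ W → ‖q • lin g a - χ c‖ ≤ 1 / 4)
    {β : ℕ} {U : Set G} (hU : U ∈ 𝓝 (0 : G))
    (hU2 : ∀ a ∈ Box bigR β, lin y a ∈ (K : Set G) + U → ∀ j, q ∣ a j)
    {ε : ℝ} (hε : 0 < ε) :
    ∃ W' ∈ 𝓝 (0 : G), ∃ k', ∀ a ∈ A k', ∀ c : K, (c : G) + lin y a ∈ W' →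
      ‖χ c + lin g a‖ < ε := by
  obtain ⟨I, hI⟩ : ∃ I : ℕ, (1 / 4 : ℝ) / ε < 2 ^ I := pow_unbounded_of_one_lt _ (by norm_num)
  obtain ⟨W₁, hW₁, _, hW₁W⟩ := exists_smul_sub_le hWm (2 ^ I)
  refine ⟨W₁ ∩ U, inter_mem hW₁ hU, max k β + I, ?_⟩
  intro a ha c hmem
  have haR : a ∈ Box bigR β := by
    refine ⟨fun i hi => A_lt ha (by have := le_max_right k β; omega), fun i => ?_⟩
    refine (A_le ha i).trans ?_
    simp only [bigR]
    exact pow_le_pow_right₀ (by norm_num) (by omega)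
  have hdiv : ∀ j, q ∣ a j := by
    refine hU2 a haR ⟨-c, K.neg_mem c.2, _, hmem.2, ?_⟩
    simp only
    abel
  obtain ⟨b, hb⟩ : ∃ b : ℕ →₀ ℤ, a = q • b := by
    refine ⟨a.mapRange (fun z => z / q) (by simp), ?_⟩
    ext i
    rw [Finsupp.smul_apply, Finsupp.mapRange_apply, smul_eq_mul]
    exact (Int.mul_ediv_cancel' (hdiv i)).symm
  have hbi : ∀ i, a i = q * b i := by
    intro i
    rw [hb, Finsupp.smul_apply, smul_eq_mul]
  have hq1 : 1 ≤ |q| := Int.one_le_abs hq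
  have hbA : ∀ i ≤ I, (2 ^ i : ℕ) • b ∈ Box smallR k := by
    intro i hi
    have hba : ∀ l, |b l| ≤ |a l| := by
      intro l
      rw [hbi l, abs_mul]
      have := abs_nonneg (b l)
      nlinarith
    refine ⟨fun l hl => ?_, fun l => ?_⟩
    · have h1 := hba l
      rw [A_lt ha (by have := le_max_left k β; omega), abs_zero] at h1
      have h2 : b l = 0 := abs_eq_zero.1 (le_antisymm h1 (abs_nonneg _))
      rw [Finsupp.smul_apply, h2, smul_zero]
    · rw [Finsupp.smul_apply, nsmul_eq_mul, abs_mul]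
      push_cast
      rw [abs_of_nonneg (by positivity : (0 : ℤ) ≤ 2 ^ i)]
      have h1 := hba l
      have h2 := ha l
      simp only [smallR]
      calc (2 : ℤ) ^ i * |b l| ≤ 2 ^ (max k β + I) * |a l| := by
            gcongr
            · norm_num
            · omega
        _ = |a l| * 2 ^ (max k β + I) := mul_comm _ _
        _ ≤ 2 ^ l := h2
  have hkey : ∀ i ≤ I, ‖(2 ^ i : ℕ) • (χ c + lin g a)‖ ≤ 1 / 4 := by
    intro i hi
    have h1 := hg ((2 ^ i : ℕ) • b) (hbA i hi) (-((2 ^ i : ℕ) • c)) (by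
      have h2 : q • lin y ((2 ^ i : ℕ) • b) - ((-((2 ^ i : ℕ) • c) : K) : G) =
          ((2 ^ i : ℕ) : ℤ) • ((c : G) + lin y a) := by
        rw [hb, lin_zsmul, lin_nsmul, natCast_zsmul, smul_add, NegMemClass.coe_neg,
          sub_neg_eq_add, AddSubgroup.coe_nsmul, smul_comm q, add_comm]
      rw [h2]
      refine hW₁W _ ?_ _ hmem.1
      rw [Nat.abs_cast]
      exact_mod_cast Nat.pow_le_pow_right (by norm_num) hi)
    have h3 : q • lin g ((2 ^ i : ℕ) • b) - χ (-((2 ^ i : ℕ) • c)) =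
        (2 ^ i : ℕ) • (χ c + lin g a) := by
      rw [hb, lin_zsmul, lin_nsmul, map_neg, map_nsmul, sub_neg_eq_add, smul_add,
        smul_comm q, add_comm]
    rw [h3] at h1
    exact h1
  have h4 := norm_of_doubling le_rfl I _ hkey
  have h5 : (0 : ℝ) < 2 ^ I := by positivity
  rw [div_lt_iff₀ hε] at hI
  by_contra hcon
  push Not at hcon
  nlinarith

end Ext

end Pool.Agent.Work.MP_417230_al.U
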