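import Pool.Agent.Work.MP_417230_al.U.Contra

set_option autoImplicit false

open Topology Filter Set
open scoped Pointwise

namespace Pool.Agent.Work.MP_417230_al.U

section Alg

variable {G : Type*} [AddCommGroup G]

theorem Chain.pow_smul {Y : ℕ → Set G} (h : Chain Y) (p a : ℕ) {n : ℕ} {x : G}
    (hx : x ∈ Y (n + p * a)) : ((p : ℤ) ^ a) • x ∈ Y n := by
  have h1 : p ^ a ≤ 2 ^ (p * a) := by
    rw [pow_mul]
    exact Nat.pow_le_pow_left (Nat.lt_two_pow_self).le a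
  have h2 : ((p : ℤ) ^ a) • x = (p ^ a : ℕ) • x := by
    rw [← natCast_zsmul]
    push_cast
    rfl
  rw [h2]
  exact h.nsmul h1 hx

theorem chain_caseI {Y : ℕ → Set G} (h : Chain Y) (p : ℕ) :
    Chain (fun n => P p Y n (n * (p + 1))) := by
  refine ⟨fun n => ⟨0, h.zero _, by simp⟩, ?_, ?_⟩
  · rintro n _ ⟨x, hx, rfl⟩
    exact ⟨-x, h.neg _ _ hx, by simp⟩
  · rintro n _ _ ⟨x, hx, rfl⟩ ⟨y, hy, rfl⟩
    refine ⟨(p : ℤ) • (x + y), ?_, ?_⟩
    · have e : (n + 1) * (p + 1) = n * (p + 1) + p * 1 + 1 := by ring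
      rw [e] at hx hy
      have := h.pow_smul p 1 (h.add _ _ _ hx hy)
      rwa [pow_one] at this
    · simp only [smul_smul, ← pow_succ, smul_add]

theorem chain_caseII {Y : ℕ → Set G} (h : Chain Y) (p B : ℕ) : Chain (fun n => P p Y B n) := by
  refine ⟨fun n => ⟨0, h.zero _, by simp⟩, ?_, ?_⟩
  · rintro n _ ⟨x, hx, rfl⟩
    exact ⟨-x, h.neg _ _ hx, by simp⟩
  · rintro n _ _ ⟨x, hx, rfl⟩ ⟨y, hy, rfl⟩
    exact ⟨x + y, h.add _ _ _ hx hy, by simp only [smul_add]⟩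

theorem caseI_sub {Y : ℕ → Set G} (h : Chain Y) (p : ℕ) {a n m : ℕ} (ham : a ≤ m) (hnm : n ≤ m) :
    P p Y m (m * (p + 1)) ⊆ P p Y a n := by
  rintro _ ⟨x, hx, rfl⟩
  refine ⟨((p : ℤ) ^ (m - a)) • x, ?_, ?_⟩
  · refine h.pow_smul p (m - a) (h.mono ?_ hx)
    have : p * (m - a) ≤ p * m := Nat.mul_le_mul_left p (Nat.sub_le m a)
    nlinarith
  · simp only [smul_smul, ← pow_add]
    rw [Nat.add_sub_cancel' ham]

end Alg

section Unif

variable {G : Type*} [AddCommGroup G] [UniformSpace G] [IsUniformAddGroup G] [T2Space G]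
  [CompleteSpace G]

omit [T2Space G] [CompleteSpace G] in
theorem closure_sub {S W : Set G} (hW : W ∈ 𝓝 (0 : G)) : closure S ⊆ S + W := by
  intro x hx
  rw [mem_closure_iff_nhds] at hx
  have hpre : (fun z => x - z) ⁻¹' W ∈ 𝓝 x := by
    have : Tendsto (fun z => x - z) (𝓝 x) (𝓝 0) := by
      have hc : Continuous (fun z : G => x - z) := continuous_const.sub continuous_id
      have := hc.tendsto x
      simpa using this
    exact this hW
  obtain ⟨s, hs, hsS⟩ := hx _ hpre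
  exact ⟨s, hsS, x - s, hs, by simp⟩

/-- construction of the compact subgroup -/
theorem exists_K {V Y : ℕ → Set G} (hV : Chain V) (hVn : ∀ n, V n ∈ 𝓝 (0 : G))
    (hY : Chain Y) (hYV : ∀ n, Y n ⊆ V n) {p : ℕ}
    (H3 : ∀ W ∈ 𝓝 (0 : G), ∃ a n : ℕ, Cov (P p Y a n) W) (hNP0 : NP p Y 0) :
    ∃ K : AddSubgroup G, IsCompact (K : Set G) ∧ (∀ c ∈ K, c ∈ V 1) ∧
      ∀ U ∈ 𝓝 (0 : G), ∃ β, NP p Y β ∧ ∃ n, P p Y (β + 1) n ⊆ (K : Set G) + U := by
  have hcl : ∀ S : Set G, S ⊆ Y 2 → closure S ⊆ V 1 := by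
    intro S hS x hx
    obtain ⟨s, hs, w, hw, rfl⟩ := closure_sub (hVn 2) hx
    exact hV.add 1 _ _ (hYV 2 (hS hs)) hw
  by_cases hall : ∀ β, NP p Y β
  · obtain ⟨K, hK, hKS, hKW⟩ := exists_compact _ (chain_caseI hY p) (by
      intro W hW
      obtain ⟨a, n, hC⟩ := H3 W hW
      exact ⟨max a n, hC.mono (caseI_sub hY p (le_max_left _ _) (le_max_right _ _)) Subset.rfl⟩)
    refine ⟨K, hK, fun c hc => ?_, fun U hU => ?_⟩
    · refine hcl _ ?_ (hKS 2 hc)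
      refine (caseI_sub hY p (Nat.zero_le 2) (le_refl 2)).trans ?_
      rintro _ ⟨x, hx, rfl⟩
      simpa using hx
    · obtain ⟨n, hn⟩ := hKW U hU
      exact ⟨n, hall n, _, ((chain_caseI hY p).succ_sub n).trans hn⟩
  · push Not at hall
    classical
    obtain ⟨B, hB, hmin⟩ : ∃ B, ¬ NP p Y B ∧ ∀ b < B, NP p Y b :=
      ⟨Nat.find hall, Nat.find_spec hall, fun b hb => not_not.1 (Nat.find_min hall hb)⟩
    obtain ⟨C, rfl⟩ : ∃ C, B = C + 1 := by
      refine ⟨B - 1, ?_⟩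
      rcases Nat.eq_zero_or_pos B with h | h
      · exact absurd hNP0 (h ▸ hB)
      · omega
    have hC : ∀ W ∈ 𝓝 (0 : G), ∃ n, Cov (P p Y (C + 1) n) W := by
      intro W hW
      by_contra hcon
      push Not at hcon
      exact hB ⟨W, hW, hcon⟩
    obtain ⟨K, hK, hKS, hKW⟩ := exists_compact _ (chain_caseII hY p (C + 1)) hC
    refine ⟨K, hK, fun c hc => ?_, fun U hU => ?_⟩
    · refine hcl _ ?_ (hKS (2 + p * (C + 1)) hc)
      rintro _ ⟨x, hx, rfl⟩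
      exact hY.pow_smul p (C + 1) hx
    · obtain ⟨n, hn⟩ := hKW U hU
      exact ⟨C, hmin C (Nat.lt_succ_self C), n, hn⟩

theorem part_cov {Vs : Set G} (hLM : LocMin G Vs) {V : ℕ → Set G}
    (hV : Chain V) (hVn : ∀ n, V n ∈ 𝓝 (0 : G)) (hVV : ∀ x ∈ V 0, ∀ y ∈ V 0, x + y ∈ Vs)
    (hPW : ∀ K : AddSubgroup G, IsCompact (K : Set G) → ∀ x : K, x ≠ 0 →
      ∃ χ : K →+ TT, Continuous χ ∧ χ x ≠ 0) {p : ℕ} (hp : p.Prime) :
    ∀ U ∈ 𝓝 (0 : G), ∃ n, Cov (part p V n) U := by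
  by_contra hcon
  push Not at hcon
  have hY : Chain (part p V) := part_chain hV p
  have hNP0 : NP p (part p V) 0 := by
    obtain ⟨U, hU, h⟩ := hcon
    refine ⟨U, hU, fun n hC => h n (hC.mono ?_ Subset.rfl)⟩
    intro x hx
    exact ⟨x, hx, by simp⟩
  have H3 : ∀ W ∈ 𝓝 (0 : G), ∃ a n : ℕ, Cov (P p (part p V) a n) W := fun W hW =>
    part_H3 hV (fun W hW => step_one hLM hV hVn hVV hW) hp hW
  obtain ⟨K, hK, hKV, hK2⟩ := exists_K hV hVn hY (part_sub hV p) H3 hNP0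
  obtain ⟨W, hW⟩ := exists_W hY hp H3 hK
  obtain ⟨y, N, hN, hy, hav⟩ := exists_seq hY hW (fun i => 3 * i + 4)
  have hG : Good y K := by
    intro U hU
    obtain ⟨β, hβ, hk⟩ := cond_i hY hN hy hK2 hU
    obtain ⟨U', hU', hU'q⟩ := cond_ii hY hp (fun β => (hW β).1) hN hy hav hβ
    refine ⟨(p : ℤ) ^ (β + 1), pow_ne_zero _ (by exact_mod_cast hp.ne_zero), hk, β, U', hU', hU'q⟩
  refine contra_of_good hLM hV hVn hVV hK hKV ?_ hG (hW 0).1 ?_ (hPW K hK)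
  · intro a ha
    have h1 : a ∈ Box (fun i => 2 ^ (3 * i + 4)) 0 := by
      refine ⟨fun i hi => absurd hi (Nat.not_lt_zero i), fun i => (A_le ha i).trans ?_⟩
      exact pow_le_pow_right₀ (by norm_num) (by omega)
    exact hV.mono (Nat.zero_le _) (part_sub hV p _ (lin_mem hY hN hy h1))
  · intro i j hij
    exact cond_iii hY hp hav hNP0 hij

end Unif

end Pool.Agent.Work.MP_417230_al.U
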